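import Pool.Agent.Helper533.Deny.Final

/-!
# MP_9b58c5_an: the nonlinear Deny theorem

For every `1 < p < ∞`, every `p`-admissible weight `w` and every operator `𝒜` satisfying the structure
conditions of the problem: a set `E ⊆ ℝⁿ` is an `𝒜`-polar `G_δ` set if and only if it is exactly the
infinity set of an `𝒜`-superharmonic function on the whole of `ℝⁿ`, and if and only if for every operator
`ℬ` with the structure conditions for the same `p` and `w` it is the infinity set of a `ℬ`-superharmonic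
function on the whole of `ℝⁿ`.
-/

open MeasureTheory Filter Topology Set
open scoped ENNReal NNReal RealInnerProductSpace

set_option autoImplicit false

namespace Pool.Agent.Results.MP_9b58c5_an.DenyNonlinear

open Pool.Agent.Helper533 Pool.Agent.Helper533.Polar

/-- an `𝒜`-polar `G_δ` set is the infinity set of a `ℬ`-superharmonic function on `ℝⁿ`, for every
operator `ℬ` with the same `p` and `w` -/
theorem transfer {n : ℕ} {p α β α' β' : ℝ} {w : Stmt.Sp n → ℝ} {𝒜 ℬ : Stmt.Sp n → Stmt.Sp n → Stmt.Sp n}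
    (hn : 1 ≤ n) (hp : 1 < p) (hw : Deny.IsAdmissible p w) (hA : Stmt.IsOperator p α β w 𝒜)
    (hB : Stmt.IsOperator p α' β' w ℬ)
    {E : Set (Stmt.Sp n)} (hE : IsGδ E) (hpol : Deny.IsPolar 𝒜 p w E) :
    ∃ u : Stmt.Sp n → EReal, Deny.IsSuperharmonic ℬ p w univ u ∧ {x | u x = ⊤} = E := by
  have hwt := wt_of hn hp hw hA
  obtain ⟨Cd0, -, -, -, -, hfin⟩ := wm_basic' hp hwt
  haveI := hfin
  obtain ⟨Cd, θ, Cs, lam, Cp, hadm⟩ := adm_of hn hp hwt
  have hα : 0 < α := hA.alpha_pos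
  have hβ : 0 < β := lt_of_lt_of_le hα hA.alpha_le_beta
  have hop := op_of_isOperator' hp hwt hA
  have hS := sMono_of hwt hA
  have hα' : 0 < α' := hB.alpha_pos
  have hβ' : 0 < β' := lt_of_lt_of_le hα' hB.alpha_le_beta
  have hop' := op_of_isOperator' hp hwt hB
  have hS' := sMono_of hwt hB
  obtain ⟨Ω, q, hΩ, hEΩ, hq, hqE⟩ := hpol
  obtain ⟨-, hcap⟩ := polar_capNull hn hp hα hβ hop hS hadm hΩ hq.lsc hq.ne_bot
    (cmpSuperE_of hp hwt hq) hq.not_top
  have hcapE : ∀ L : Set (Sp n), IsCompact L → L ⊆ Ω → CapNull p (Stmt.wm w) E L := by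
    intro L hL hLΩ N hN hLN κ hκ
    obtain ⟨V, φ, Φ, h1, h2, h3⟩ := hcap L hL hLΩ N hN hLN κ hκ
    exact ⟨V, φ, Φ, h1, fun x hx => h2 ⟨⟨hEΩ hx.1, hqE x hx.1⟩, hx.2⟩, h3⟩
  obtain ⟨u, hu1, hu2, hu3, hu4⟩ := deny_internal hn hp hα' hβ' hop' hS' hadm hE hΩ hEΩ hcapE
  have hEne : ∃ y, y ∉ E := by
    by_contra hcon
    push Not at hcon
    have hΩu : Ω = univ := eq_univ_of_forall fun x => hEΩ (hcon x)
    obtain ⟨y, -, hy⟩ := hq.not_top 0 (by rw [hΩu]; exact mem_univ _)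
    exact hy (hqE y (hcon y))
  refine ⟨u, ⟨fun x _ => hu2 x, hu1.lowerSemicontinuousOn _, ?_, ?_⟩, ?_⟩
  · intro x _
    obtain ⟨y, hy⟩ := hEne
    refine ⟨y, ?_, fun h => hy ((hu4 y).1 h)⟩
    rw [connectedComponentIn_univ, PreconnectedSpace.connectedComponent_eq_univ]
    exact mem_univ _
  · intro D hD hDc hDΩ h hc hh hb
    obtain ⟨-, H, hH1, hH2⟩ := hh
    refine hu3 D hD hDc hDΩ h H hc (LH.of_H1Loc hp hD hH1) ?_ hb
    intro φ hφ
    have h1 := hH2 φ (isTest_iff.2 hφ)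
    have h2 := integral_wm' hwt (fun x => ⟪ℬ x (H x), gradient φ x⟫)
    rw [← h1, ← h2]
    congr 1
    ext x
    rw [real_inner_smul_left]
  · ext x
    exact hu4 x

/-- the infinity set of an `𝒜`-superharmonic function on `ℝⁿ` is a `G_δ` set -/
theorem isGδ_top {n : ℕ} {p : ℝ} {w : Stmt.Sp n → ℝ} {𝒜 : Stmt.Sp n → Stmt.Sp n → Stmt.Sp n}
    {u : Stmt.Sp n → EReal} (hu : Deny.IsSuperharmonic 𝒜 p w univ u) : IsGδ {x | u x = ⊤} := by
  have hlsc : LowerSemicontinuous u := lowerSemicontinuousOn_univ_iff.1 hu.lsc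
  have e : {x | u x = ⊤} = ⋂ m : ℕ, u ⁻¹' Ioi ((m : ℝ) : EReal) := by
    ext x
    simp only [mem_setOf_eq, mem_iInter, mem_preimage, mem_Ioi]
    constructor
    · intro h m
      rw [h]
      exact EReal.coe_lt_top _
    · intro h
      rw [EReal.eq_top_iff_forall_lt]
      intro y
      obtain ⟨m, hm⟩ := exists_nat_ge y
      exact lt_of_le_of_lt (EReal.coe_le_coe_iff.2 hm) (h m)
  rw [e]
  exact IsGδ.iInter fun m => (hlsc.isOpen_preimage _).isGδ

/-- Let `n ≥ 1`, `1 < p < ∞`, `w` a `p`-admissible weight and `𝒜` an operator with the structure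
conditions. For a set `E ⊆ ℝⁿ` the following are equivalent: (1) `E` is an `𝒜`-polar `G_δ` set; (2) `E`
is the infinity set of an `𝒜`-superharmonic function on `ℝⁿ`; (3) for every operator `ℬ` with the
structure conditions (for the same `p` and `w`) `E` is the infinity set of a `ℬ`-superharmonic function
on `ℝⁿ`. -/
theorem result {n : ℕ} {p α β : ℝ} {w : Stmt.Sp n → ℝ} {𝒜 : Stmt.Sp n → Stmt.Sp n → Stmt.Sp n}
    (hn : 1 ≤ n) (hp : 1 < p) (hw : Deny.IsAdmissible p w) (hA : Stmt.IsOperator p α β w 𝒜)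
    (E : Set (Stmt.Sp n)) :
    List.TFAE [IsGδ E ∧ Deny.IsPolar 𝒜 p w E,
      ∃ u : Stmt.Sp n → EReal, Deny.IsSuperharmonic 𝒜 p w univ u ∧ {x | u x = ⊤} = E,
      ∀ (α' β' : ℝ) (ℬ : Stmt.Sp n → Stmt.Sp n → Stmt.Sp n), Stmt.IsOperator p α' β' w ℬ →
        ∃ u : Stmt.Sp n → EReal, Deny.IsSuperharmonic ℬ p w univ u ∧ {x | u x = ⊤} = E] := by
  tfae_have 1 → 3 := fun h α' β' ℬ hB => transfer hn hp hw hA hB h.1 h.2
  tfae_have 3 → 2 := fun h => h α β 𝒜 hA
  tfae_have 2 → 1 := by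
    rintro ⟨u, hu, rfl⟩
    exact ⟨isGδ_top hu, univ, u, isOpen_univ, subset_univ _, hu, fun x hx => hx⟩
  tfae_finish

end Pool.Agent.Results.MP_9b58c5_an.DenyNonlinear
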